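import Mathlib

set_option autoImplicit false

open Set Topology Filter

namespace Pool.Agent.Results.MP_80a07b_an.CompactPerturbations

universe u v

/-- A group acting on a compact set covered by countably many closed sets, such that two elements of the
same class (among finitely many) which bring a point into the same closed set are equal, is finite. -/
theorem abstr {Γ P ι σ : Type*} [Group Γ] [TopologicalSpace P] [T2Space P] [Countable ι] [Finite σ]
    (χ : Γ → σ)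
    (act : Γ → P → P) (hc : ∀ g, Continuous (act g)) (h1 : ∀ y, act 1 y = y)
    (hm : ∀ g h y, act (g * h) y = act g (act h y)) (K : Set P) (hK : IsCompact K)
    (hne : K.Nonempty) (hinv : ∀ g, MapsTo (act g) K K) (B : ι → Set P)
    (hB : ∀ n, IsClosed (B n)) (hcov : ∀ y ∈ K, ∃ n, y ∈ B n)
    (hsep : ∀ n, ∀ y ∈ K, ∀ g₁ g₂, χ g₁ = χ g₂ → act g₁ y ∈ B n → act g₂ y ∈ B n → g₁ = g₂) :
    Finite Γ := by
  obtain ⟨K0, hK0, hmin⟩ := zorn_superset_nonempty
    {L : Set P | L ⊆ K ∧ IsClosed L ∧ L.Nonempty ∧ ∀ g, MapsTo (act g) L L} (by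
      intro c hcS hch hcn
      have : Nonempty c := hcn.to_subtype
      obtain ⟨L, hL⟩ := hcn
      refine ⟨⋂₀ c, ⟨(sInter_subset_of_mem hL).trans (hcS hL).1,
        isClosed_sInter fun L hL => (hcS hL).2.1, ?_,
        fun g y hy L hL => (hcS hL).2.2.2 g (hy L hL)⟩, fun s hs => sInter_subset_of_mem hs⟩
      exact IsCompact.nonempty_sInter_of_directed_nonempty_isCompact_isClosed
        (fun a ha b hb => (hch.total ha hb).elim (fun h => ⟨a, ha, subset_rfl, h⟩)
          fun h => ⟨b, hb, h, subset_rfl⟩) (fun U hU => (hcS hU).2.2.1)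
        (fun U hU => hK.of_isClosed_subset (hcS hU).2.1 (hcS hU).1) (fun U hU => (hcS hU).2.1))
    K ⟨subset_rfl, hK.isClosed, hne, hinv⟩
  obtain ⟨-, hcl, hn0, hi0⟩ := hmin.prop
  have hc0 : IsCompact K0 := hK.of_isClosed_subset hcl hK0
  have : CompactSpace K0 := isCompact_iff_compactSpace.1 hc0
  have : Nonempty K0 := hn0.to_subtype
  obtain ⟨n, z, hz⟩ := nonempty_interior_of_iUnion_of_closed
    (f := fun n => ((↑) : K0 → P) ⁻¹' B n) (fun n => (hB n).preimage continuous_subtype_val) (by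
      refine eq_univ_of_forall fun y => ?_
      obtain ⟨n, hn⟩ := hcov y (hK0 y.2)
      exact mem_iUnion.2 ⟨n, hn⟩)
  obtain ⟨V, hVs, hVo, hzV⟩ := mem_interior.1 hz
  obtain ⟨U, hUo, rfl⟩ := isOpen_induced_iff.1 hVo
  have hcover : K0 ⊆ ⋃ g, act g ⁻¹' U := by
    by_contra hcon
    obtain ⟨y, hy, hy'⟩ := not_subset.1 hcon
    have h2 := hmin.le_of_le (y := K0 \ ⋃ g, act g ⁻¹' U)
      ⟨sdiff_subset.trans hK0, hcl.sdiff (isOpen_iUnion fun g => hUo.preimage (hc g)), ⟨y, hy, hy'⟩,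
        fun g w hw => ⟨hi0 g hw.1, fun h => hw.2 (by
          obtain ⟨k, hk⟩ := mem_iUnion.1 h
          exact mem_iUnion.2 ⟨k * g, by rw [mem_preimage, hm]; exact hk⟩)⟩⟩ sdiff_subset
    exact (h2 z.2).2 (mem_iUnion.2 ⟨1, by rw [mem_preimage, h1]; exact hzV⟩)
  obtain ⟨t, ht⟩ := hc0.elim_finite_subcover _ (fun g => hUo.preimage (hc g)) hcover
  obtain ⟨y, hy⟩ := hn0
  have h3 : ∀ h : Γ, ∃ g : t, act (g * h) y ∈ B n := by
    intro h
    obtain ⟨g, hg, hgU⟩ := mem_iUnion₂.1 (ht (hi0 h hy))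
    refine ⟨⟨g, hg⟩, ?_⟩
    rw [hm]
    exact hVs (a := ⟨_, hi0 g (hi0 h hy)⟩) hgU
  choose φ hφ using h3
  refine Finite.of_injective (fun h => (φ h, χ (φ h * h))) fun h h' e => ?_
  obtain ⟨e1, e2⟩ := Prod.ext_iff.1 e
  simp only at e1 e2
  have h4 := hsep n y (hK0 hy) _ _ e2 (hφ h) (hφ h')
  rw [e1, mul_right_inj] at h4
  exact h4

variable {𝕜 : Type u} {X : Type v} [RCLike 𝕜] [NormedAddCommGroup X] [NormedSpace 𝕜 X]

lemma eval_cont (f : StrongDual 𝕜 X) : Continuous fun y : WeakSpace 𝕜 X => f ((toWeakSpace 𝕜 X).symm y) :=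
  WeakBilin.eval_continuous (topDualPairing 𝕜 X).flip f

lemma wclosed_ball (d : X) {η : ℝ} (hη : 0 ≤ η) :
    IsClosed {y : WeakSpace 𝕜 X | ‖(toWeakSpace 𝕜 X).symm y - d‖ ≤ η} := by
  have h : {y : WeakSpace 𝕜 X | ‖(toWeakSpace 𝕜 X).symm y - d‖ ≤ η} =
      ⋂ f : StrongDual 𝕜 X, {y | ‖f ((toWeakSpace 𝕜 X).symm y) - f d‖ ≤ η * ‖f‖} := by
    ext y
    simp only [mem_ofPred_eq, mem_iInter]
    refine ⟨fun h f => ?_, fun h => NormedSpace.norm_le_dual_bound 𝕜 _ hη fun f => ?_⟩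
    · rw [← map_sub, mul_comm]
      exact (f.le_opNorm _).trans (by gcongr)
    · rw [map_sub]; exact h f
  rw [h]
  exact isClosed_iInter fun f => isClosed_le ((eval_cont f).sub continuous_const).norm continuous_const

lemma wclosed_sub (Y : Submodule 𝕜 X) (hY : IsClosed (Y : Set X)) :
    IsClosed {y : WeakSpace 𝕜 X | (toWeakSpace 𝕜 X).symm y ∈ Y} := by
  have h : {y : WeakSpace 𝕜 X | (toWeakSpace 𝕜 X).symm y ∈ Y} =
      ⋂ f : {f : StrongDual 𝕜 X // ∀ y ∈ Y, f y = 0}, {y | f.1 ((toWeakSpace 𝕜 X).symm y) = 0} := by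
    ext y
    simp only [mem_ofPred_eq, mem_iInter]
    refine ⟨fun h f => f.2 _ h, fun h => ?_⟩
    haveI := hY
    rw [← Submodule.Quotient.mk_eq_zero]
    refine SeparatingDual.eq_zero_of_forall_dual_eq_zero (R := 𝕜) fun f => ?_
    refine h ⟨f.comp Y.mkQL, fun y hy => ?_⟩
    have : Y.mkQL y = 0 := (Submodule.Quotient.mk_eq_zero Y).2 hy
    rw [ContinuousLinearMap.comp_apply, this, map_zero]
  rw [h]
  exact isClosed_iInter fun f => isClosed_eq (eval_cont f.1) continuous_const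

/-- Compact operators are continuous on bounded sets from the weak to the norm topology. -/
lemma compact_cont (T : X →L[𝕜] X) (hT : IsCompactOperator T) (R : ℝ) :
    ContinuousOn (fun y : WeakSpace 𝕜 X => T ((toWeakSpace 𝕜 X).symm y))
      {y | ‖(toWeakSpace 𝕜 X).symm y‖ ≤ R} := by
  set C := closure (T '' Metric.closedBall (0 : X) R) with hC
  have hCc : IsCompact C := hT.isCompact_closure_image_closedBall R
  have : CompactSpace C := isCompact_iff_compactSpace.1 hCc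
  let j : C → WeakSpace 𝕜 X := fun c => toWeakSpace 𝕜 X c.1
  have hj : Continuous j := (toWeakSpaceCLM 𝕜 X).continuous.comp continuous_subtype_val
  have hji : Function.Injective j := fun a b h => Subtype.ext ((toWeakSpace 𝕜 X).injective h)
  have hje : IsClosedEmbedding j := hj.isClosedEmbedding hji
  rw [continuousOn_iff_continuous_domRestrict]
  let f : {y : WeakSpace 𝕜 X | ‖(toWeakSpace 𝕜 X).symm y‖ ≤ R} → C :=
    fun y => ⟨T ((toWeakSpace 𝕜 X).symm y.1), subset_closure ⟨_, mem_closedBall_zero_iff.2 y.2, rfl⟩⟩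
  have hf : Continuous f := by
    rw [hje.isInducing.continuous_iff]
    exact (WeakSpace.map T).continuous.comp continuous_subtype_val
  exact continuous_subtype_val.comp hf

/-- The orbit of `x` under `G` is relatively weakly compact. -/
def WCOrbit (G : Subgroup (X →L[𝕜] X)ˣ) (x : X) : Prop :=
  IsCompact (closure {y : WeakSpace 𝕜 X | ∃ g ∈ G, y = toWeakSpace 𝕜 X (g.val x)})

/-- `G` is totally bounded modulo the compact operators: for each `τ > 0` it is covered by finitely many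
sets `T + {operators at distance at most τ from a compact one}`. -/
def TotallyBoundedModCompact (G : Subgroup (X →L[𝕜] X)ˣ) : Prop :=
  ∀ τ > 0, ∃ 𝒯 : Finset (X →L[𝕜] X), ∀ g ∈ G, ∃ T ∈ 𝒯, ∃ K : X →L[𝕜] X, IsCompactOperator K ∧
    ‖g.val - T - K‖ ≤ τ

theorem main (G : Subgroup (X →L[𝕜] X)ˣ) (hbdd : ∃ C : ℝ, ∀ g ∈ G, ‖g.val‖ ≤ C)
    (hG : TotallyBoundedModCompact G) (s : Finset X) (hs : ∀ x ∈ s, WCOrbit G x) (δ : ℝ) (hδ : 0 < δ)
    (hd : ∀ g ∈ G, (∀ x ∈ s, ‖g.val x - x‖ < δ) → g = 1) : (G : Set (X →L[𝕜] X)ˣ).Finite := by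
  by_contra hinf
  obtain ⟨C', hC'⟩ := hbdd
  obtain ⟨C, hC0, hC⟩ : ∃ C : ℝ, 0 < C ∧ ∀ g ∈ G, ‖g.val‖ ≤ C :=
    ⟨|C'| + 1, by positivity, fun g hg => ((hC' g hg).trans (le_abs_self _)).trans (by linarith)⟩
  let e := Set.Infinite.natEmbedding _ hinf
  let H := (FreeGroup.lift fun n => (e n).1).range
  have hHG : H ≤ G := FreeGroup.range_lift_le (by rintro _ ⟨n, rfl⟩; exact (e n).2)
  have hHc : Countable H := (MonoidHom.rangeRestrict_surjective _).countable
  have hHi : Infinite H := Infinite.of_injective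
    (fun n => (⟨(e n).1, FreeGroup.of n, by simp⟩ : H)) fun a b h =>
      e.injective (Subtype.ext (congrArg (fun x : H => x.1) h))
  -- constants
  obtain ⟨M, hM0, hM⟩ : ∃ M : ℝ, 0 < M ∧ ∀ x ∈ s, ‖x‖ ≤ M := by
    refine ⟨∑ x ∈ s, ‖x‖ + 1, by positivity, fun x hx => ?_⟩
    have : ‖x‖ ≤ ∑ x ∈ s, ‖x‖ :=
      Finset.single_le_sum (f := fun x : X => ‖x‖) (fun _ _ => norm_nonneg _) hx
    linarith
  set R := C * M with hR
  have hR0 : 0 < R := by positivity
  set η := δ / (6 * C) with hη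
  have hη0 : 0 < η := by positivity
  set τ := η / (2 * C * R) with hτ
  have hτ0 : 0 < τ := by positivity
  obtain ⟨𝒯, h𝒯⟩ := hG τ hτ0
  choose! T hT K hK hTK using h𝒯
  let w := toWeakSpace 𝕜 X
  let act : H → (s → WeakSpace 𝕜 X) → (s → WeakSpace 𝕜 X) :=
    fun g y i => WeakSpace.map g.1.val (y i)
  have hci : ∀ i : s, Continuous fun y : s → WeakSpace 𝕜 X => y i := fun i => continuous_apply i
  have hact : ∀ (g : H) y i, w.symm (act g y i) = g.1.val (w.symm (y i)) := fun _ _ _ => rfl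
  have hc : ∀ g, Continuous (act g) := fun g =>
    continuous_pi fun i => (WeakSpace.map g.1.val).continuous.comp (continuous_apply i)
  let O : Set (s → WeakSpace 𝕜 X) := range fun g : H => act g fun i => w i
  let Oi : s → Set (WeakSpace 𝕜 X) := fun i => range fun g : H => w (g.1.val i)
  have hKO : closure O ⊆ Set.pi univ fun i => closure (Oi i) := by
    refine closure_minimal ?_ (isClosed_set_pi fun i _ => isClosed_closure)
    rintro _ ⟨g, rfl⟩ i -
    exact subset_closure ⟨g, rfl⟩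
  have hcomp : IsCompact (closure O) := by
    refine (isCompact_univ_pi fun i => ?_).of_isClosed_subset isClosed_closure hKO
    refine (hs i i.2).of_isClosed_subset isClosed_closure (closure_mono ?_)
    rintro _ ⟨g, rfl⟩
    exact ⟨g.1, hHG g.2, rfl⟩
  have hOR : ∀ y ∈ closure O, ∀ i, ‖w.symm (y i)‖ ≤ R := by
    intro y hy i
    have h1 : IsClosed {y : s → WeakSpace 𝕜 X | ‖w.symm (y i) - 0‖ ≤ R} :=
      (wclosed_ball (𝕜 := 𝕜) (0 : X) hR0.le).preimage (hci i)
    have h2 : O ⊆ {y : s → WeakSpace 𝕜 X | ‖w.symm (y i) - 0‖ ≤ R} := by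
      rintro _ ⟨g, rfl⟩
      show ‖g.1.val (i : X) - 0‖ ≤ R
      rw [sub_zero]
      exact (g.1.val.le_opNorm _).trans (mul_le_mul (hC _ (hHG g.2)) (hM _ i.2) (norm_nonneg _) hC0.le)
    simpa using closure_minimal h2 h1 hy
  let A : Set X := range fun p : H × s => p.1.1.val p.2
  obtain ⟨D, hDc, hD⟩ := ((countable_range (fun p : H × s => p.1.1.val (p.2 : X))).isSeparable.span
    (R := 𝕜)).closure
  have : Countable D := hDc.to_subtype
  obtain ⟨Y, hYc, hYA, hYD⟩ : ∃ Y : Submodule 𝕜 X, IsClosed (Y : Set X) ∧ A ⊆ Y ∧ (Y : Set X) ⊆ closure D :=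
    ⟨(Submodule.span 𝕜 A).topologicalClosure, Submodule.isClosed_topologicalClosure _,
      Submodule.subset_span.trans (Submodule.le_topologicalClosure _), hD⟩
  refine not_finite_iff_infinite.2 hHi (abstr (fun g : H => (⟨T g.1, hT g.1 (hHG g.2)⟩ : 𝒯)) act hc
    (fun _ => rfl) (fun _ _ _ => rfl) (closure O)
    hcomp ⟨_, subset_closure ⟨1, rfl⟩⟩ (fun g => MapsTo.closure ?_ (hc g))
    (fun d : s → D => {y | ∀ i, ‖w.symm (y i) - d i‖ ≤ η}) (fun d => ?_)
    (fun y hy => ?_) fun d y hy g₁ g₂ h12 h1 h2 => ?_)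
  · rintro _ ⟨h, rfl⟩
    exact ⟨g * h, rfl⟩
  · rw [ofPred_forall]
    exact isClosed_iInter fun i => (wclosed_ball (𝕜 := 𝕜) _ hη0.le).preimage (hci i)
  · have h1 : ∀ i, ∃ d : D, ‖w.symm (y i) - d‖ ≤ η := by
      intro i
      have h2 : w.symm (y i) ∈ Y := by
        have h3 := wclosed_sub Y hYc
        have h4 : Oi i ⊆ {y : WeakSpace 𝕜 X | (toWeakSpace 𝕜 X).symm y ∈ Y} := by
          rintro _ ⟨g, rfl⟩
          exact hYA ⟨(g, i), rfl⟩
        exact closure_minimal h4 h3 (hKO hy i trivial)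
      obtain ⟨d, hd1, hd2⟩ := Metric.mem_closure_iff.1 (hYD h2) η hη0
      exact ⟨⟨d, hd1⟩, by rw [← dist_eq_norm]; exact hd2.le⟩
    choose d hd using h1
    exact ⟨d, hd⟩
  · -- separation
    set z := act g₁ y with hz
    have hzO : z ∈ closure O := (MapsTo.closure (s := O) (t := O)
      (by rintro _ ⟨h, rfl⟩; exact ⟨g₁ * h, rfl⟩) (hc g₁)) hy
    have hTT : T g₁.1 = T g₂.1 := congrArg Subtype.val h12
    set g : H := g₂ * g₁⁻¹ with hg
    let K' : X →L[𝕜] X := (K g₂.1 - K g₁.1) ∘L (g₁⁻¹ : H).1.val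
    let E : X →L[𝕜] X := ((g₂.1.val - T g₂.1 - K g₂.1) - (g₁.1.val - T g₁.1 - K g₁.1)) ∘L (g₁⁻¹ : H).1.val
    have hK' : IsCompactOperator K' :=
      ((hK _ (hHG g₂.2)).sub (hK _ (hHG g₁.2))).comp_clm (g₁⁻¹ : H).1.val
    have hE : ∀ x, ‖x‖ ≤ R → ‖E x‖ ≤ η := by
      intro x hx
      have e1 : ‖(g₁⁻¹ : H).1.val x‖ ≤ C * R :=
        ((g₁⁻¹ : H).1.val.le_opNorm x).trans (mul_le_mul (hC _ (hHG (g₁⁻¹).2)) hx (norm_nonneg _) hC0.le)
      have e2 : ‖(g₂.1.val - T g₂.1 - K g₂.1) - (g₁.1.val - T g₁.1 - K g₁.1)‖ ≤ 2 * τ :=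
        (norm_sub_le _ _).trans (by linarith [hTK _ (hHG g₂.2), hTK _ (hHG g₁.2)])
      have e3 := (((g₂.1.val - T g₂.1 - K g₂.1) - (g₁.1.val - T g₁.1 - K g₁.1)).le_opNorm
        ((g₁⁻¹ : H).1.val x)).trans (mul_le_mul e2 e1 (norm_nonneg _) (by positivity))
      refine e3.trans_eq ?_
      rw [hτ]; field_simp
    have hgx : ∀ x : X, g.1.val x - x = K' x + E x := by
      intro x
      have e1 : g₁.1.val ((g₁⁻¹ : H).1.val x) = x :=
        congrArg (fun u : H => u.1.val x) (mul_inv_cancel g₁)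
      have e2 : g.1.val x = g₂.1.val ((g₁⁻¹ : H).1.val x) := rfl
      simp only [K', E, ContinuousLinearMap.comp_apply, sub_apply, e2, hTT]
      rw [e1]; abel
    have hz2 : ∀ i, g.1.val (w.symm (z i)) = w.symm (act g₂ y i) := by
      intro i
      rw [hz, hact, hact]
      show (g₂ * g₁⁻¹ * g₁ : H).1.val (w.symm (y i)) = _
      rw [inv_mul_cancel_right]
    have hKz : ∀ i, ‖K' (w.symm (z i))‖ ≤ 3 * η := by
      intro i
      have e1 := hgx (w.symm (z i))
      rw [hz2] at e1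
      have e2 : K' (w.symm (z i)) = (w.symm (act g₂ y i) - d i) - (w.symm (z i) - d i) - E (w.symm (z i)) := by
        rw [sub_sub_sub_cancel_right, e1]; abel
      rw [e2]
      refine (norm_sub_le _ _).trans ?_
      have e3 := norm_sub_le (w.symm (act g₂ y i) - (d i : X)) (w.symm (z i) - d i)
      have e4 := hE _ (hOR z hzO i)
      have e5 := h1 i
      have e6 := h2 i
      linarith
    have hne : (𝓝[O] z).NeBot := mem_closure_iff_nhdsWithin_neBot.1 hzO
    have hev : ∀ᶠ p in 𝓝[O] z, ∀ i, ‖K' (w.symm (p i)) - K' (w.symm (z i))‖ < η := by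
      rw [eventually_all]
      intro i
      have e1 : Tendsto (fun p : s → WeakSpace 𝕜 X => K' (w.symm (p i))) (𝓝[O] z)
          (𝓝 (K' (w.symm (z i)))) := by
        have e2 := (compact_cont K' hK' R) (z i) (hOR z hzO i)
        have e3 : Tendsto (fun p : s → WeakSpace 𝕜 X => p i) (𝓝[O] z)
            (𝓝[{y | ‖(toWeakSpace 𝕜 X).symm y‖ ≤ R}] (z i)) := by
          refine tendsto_nhdsWithin_iff.2 ⟨(hci i).continuousAt.continuousWithinAt, ?_⟩
          filter_upwards [self_mem_nhdsWithin] with p hp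
          exact hOR p (subset_closure hp) i
        exact e2.tendsto.comp e3
      have e4 := (Metric.tendsto_nhds.1 e1) η hη0
      filter_upwards [e4] with p hp
      rwa [← dist_eq_norm]
    obtain ⟨p, hp1, h, rfl⟩ := (hev.and self_mem_nhdsWithin).exists
    have hsmall : ∀ x ∈ s, ‖(h⁻¹ * g * h : H).1.val x - x‖ < δ := by
      intro x hx
      have a0 : ‖h.1.val x‖ ≤ R :=
        (h.1.val.le_opNorm _).trans (mul_le_mul (hC _ (hHG h.2)) (hM _ hx) (norm_nonneg _) hC0.le)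
      have a1 : ‖g.1.val (h.1.val x) - h.1.val x‖ ≤ 5 * η := by
        rw [hgx]
        have b1 : ‖K' (h.1.val x) - K' (w.symm (z ⟨x, hx⟩))‖ < η := hp1 ⟨x, hx⟩
        have b2 := hKz ⟨x, hx⟩
        have b3 := hE _ a0
        have b4 := norm_add_le (K' (h.1.val x) - K' (w.symm (z ⟨x, hx⟩))) (K' (w.symm (z ⟨x, hx⟩)))
        rw [sub_add_cancel] at b4
        exact (norm_add_le _ _).trans (by linarith)
      have a2 : (h⁻¹ * g * h : H).1.val x - x =
          (h⁻¹ : H).1.val (g.1.val (h.1.val x) - h.1.val x) := by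
        rw [map_sub]
        congr 1
        exact (congrArg (fun u : H => u.1.val x) (inv_mul_cancel h)).symm
      rw [a2]
      refine lt_of_le_of_lt ((h⁻¹ : H).1.val.le_of_opNorm_le (hC _ (hHG (h⁻¹).2)) _) ?_
      calc C * _ ≤ C * (5 * η) := mul_le_mul_of_nonneg_left a1 hC0.le
        _ < C * (6 * η) := by nlinarith
        _ = δ := by rw [hη]; field_simp
    have h6 := hd _ (hHG (h⁻¹ * g * h).2) hsmall
    have h7 : h⁻¹ * g * h = 1 := Subtype.ext h6
    rw [mul_assoc, inv_mul_eq_one, right_eq_mul, hg, mul_inv_eq_one] at h7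
    exact h7.symm

/-- Discreteness of `G` in the strong operator topology. -/
def SOTDiscrete (G : Subgroup (X →L[𝕜] X)ˣ) : Prop :=
  ∀ g ∈ G, ∃ s : Finset X, ∃ δ : ℝ, 0 < δ ∧ ∀ h ∈ G, (∀ x ∈ s, ‖h.val x - g.val x‖ < δ) → h = g

lemma wcOrbit_of_reflexive (hr : Function.Surjective (NormedSpace.inclusionInDoubleDual 𝕜 X))
    (G : Subgroup (X →L[𝕜] X)ˣ) (hbdd : ∃ C : ℝ, ∀ g ∈ G, ‖g.val‖ ≤ C) (x : X) : WCOrbit G x := by
  obtain ⟨C, hC⟩ := hbdd
  refine NormedSpace.isCompact_closure_of_isBounded 𝕜 X _ ?_ fun φ _ => ?_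
  · refine isBounded_iff_forall_norm_le.2 ⟨C * ‖x‖, ?_⟩
    rintro y ⟨g, hg, hy⟩
    have : y = g.val x := hy
    rw [this]
    exact g.val.le_of_opNorm_le (hC _ hg) _
  · obtain ⟨y, hy⟩ := hr φ
    exact ⟨y, DFunLike.ext _ _ fun f => congrArg (fun u : StrongDual 𝕜 (StrongDual 𝕜 X) => u f) hy⟩

lemma sotDiscrete_of_finite (G : Subgroup (X →L[𝕜] X)ˣ) (h : (G : Set (X →L[𝕜] X)ˣ).Finite) :
    SOTDiscrete G := by
  classical
  intro g _
  have h1 : ∀ h : (X →L[𝕜] X)ˣ, h ≠ g → ∃ x, h.val x ≠ g.val x := by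
    intro h hne
    by_contra hcon
    push Not at hcon
    exact hne (Units.ext (ContinuousLinearMap.ext hcon))
  choose! x hx using h1
  set S := h.toFinset.filter (· ≠ g) with hS
  rcases S.eq_empty_or_nonempty with hE | hE
  · refine ⟨∅, 1, one_pos, fun h' hh _ => ?_⟩
    by_contra hne
    have : h' ∈ S := by simp [hS, hne]; exact hh
    rw [hE] at this
    simp at this
  · obtain ⟨m, hm, hmin⟩ := S.exists_min_image (fun h' => ‖h'.val (x h') - g.val (x h')‖) hE
    have hmg : m ≠ g := (Finset.mem_filter.1 hm).2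
    refine ⟨S.image x, ‖m.val (x m) - g.val (x m)‖, norm_pos_iff.2 (sub_ne_zero.2 (hx m hmg)),
      fun h' hh hlt => ?_⟩
    by_contra hne
    have h'S : h' ∈ S := by simp [hS, hne]; exact hh
    exact (hmin h' h'S).not_gt (hlt (x h') (Finset.mem_image_of_mem x h'S))

lemma totallyBounded_of_scalar (G : Subgroup (X →L[𝕜] X)ˣ)
    (h : ∀ g ∈ G, ∃ c : 𝕜, ‖c‖ = 1 ∧ IsCompactOperator (g.val - c • ContinuousLinearMap.id 𝕜 X)) :
    TotallyBoundedModCompact G := by
  classical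
  intro τ hτ
  obtain ⟨t, ht, hcov⟩ := Metric.totallyBounded_iff.1 (isCompact_sphere (0 : 𝕜) 1).totallyBounded τ hτ
  refine ⟨ht.toFinset.image fun c => c • ContinuousLinearMap.id 𝕜 X, fun g hg => ?_⟩
  obtain ⟨c, hc1, hc⟩ := h g hg
  obtain ⟨d, hd, hcd⟩ := mem_iUnion₂.1 (hcov (show c ∈ Metric.sphere (0 : 𝕜) 1 by simpa using hc1))
  refine ⟨_, Finset.mem_image_of_mem _ (ht.mem_toFinset.2 hd), _, hc, ?_⟩
  have e : g.val - d • ContinuousLinearMap.id 𝕜 X - (g.val - c • ContinuousLinearMap.id 𝕜 X) =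
      (c - d) • ContinuousLinearMap.id 𝕜 X := by
    rw [sub_smul]; abel
  rw [e, norm_smul]
  rw [Metric.mem_ball, dist_eq_norm] at hcd
  calc ‖c - d‖ * ‖ContinuousLinearMap.id 𝕜 X‖ ≤ ‖c - d‖ * 1 := by
        gcongr; exact ContinuousLinearMap.norm_id_le
    _ ≤ τ := by rw [mul_one]; exact hcd.le

/-- **Main theorem.** Let `G` be a bounded group of invertible operators on a normed space over `ℝ` or `ℂ`.
(1) If `G` is totally bounded modulo the compact operators and finitely many vectors with relatively weakly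
compact orbits isolate the identity of `G` in the strong operator topology, then `G` is finite.
(2) On a reflexive space, if `G` is totally bounded modulo the compact operators, then `G` is discrete in the
strong operator topology if and only if it is finite.
(3) This holds if each element of `G` is the sum of a scalar of modulus one and a compact operator. -/
theorem result (G : Subgroup (X →L[𝕜] X)ˣ) (hbdd : ∃ C : ℝ, ∀ g ∈ G, ‖g.val‖ ≤ C) :
    (TotallyBoundedModCompact G → ∀ (s : Finset X) (δ : ℝ), 0 < δ → (∀ x ∈ s, WCOrbit G x) →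
      (∀ g ∈ G, (∀ x ∈ s, ‖g.val x - x‖ < δ) → g = 1) → (G : Set (X →L[𝕜] X)ˣ).Finite) ∧
    (Function.Surjective (NormedSpace.inclusionInDoubleDual 𝕜 X) → TotallyBoundedModCompact G →
      (SOTDiscrete G ↔ (G : Set (X →L[𝕜] X)ˣ).Finite)) ∧
    (Function.Surjective (NormedSpace.inclusionInDoubleDual 𝕜 X) →
      (∀ g ∈ G, ∃ c : 𝕜, ‖c‖ = 1 ∧ IsCompactOperator (g.val - c • ContinuousLinearMap.id 𝕜 X)) →
      (SOTDiscrete G ↔ (G : Set (X →L[𝕜] X)ˣ).Finite)) := by
  have key : Function.Surjective (NormedSpace.inclusionInDoubleDual 𝕜 X) → TotallyBoundedModCompact G →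
      (SOTDiscrete G ↔ (G : Set (X →L[𝕜] X)ˣ).Finite) := by
    intro hr hT
    refine ⟨fun hd => ?_, sotDiscrete_of_finite G⟩
    obtain ⟨s, δ, hδ, h⟩ := hd 1 G.one_mem
    exact main G hbdd hT s (fun x _ => wcOrbit_of_reflexive hr G hbdd x) δ hδ h
  exact ⟨fun hT s δ hδ hs hd => main G hbdd hT s hs δ hδ hd, key,
    fun hr h => key hr (totallyBounded_of_scalar G h)⟩

end Pool.Agent.Results.MP_80a07b_an.CompactPerturbations
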